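import Pool.Agent.K3h85.NP.NetZ

/-!
# Project NP, brick NETK: the rank over the function field
-/

set_option autoImplicit false
set_option linter.all false

namespace Pool.Agent.K3h85.NP

open Polynomial Pool.Agent.K3h82.CP Pool.Agent.R410.NG Pool.Agent.K3h71.NP

/-- `X ↦ x`, `Z ↦ y` -/
noncomputable def Psi {M L : Type} [Field M] [Field L] [Algebra M L] (x y : L) : M[X][X] →+* L :=
  eval₂RingHom ((aeval x : M[X] →ₐ[M] L) : M[X] →+* L) y

theorem Psi_CC {M L : Type} [Field M] [Field L] [Algebra M L] (x y : L) (a : M) :
    Psi x y (C (C a)) = algebraMap M L a := by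
  unfold Psi
  simp

theorem Psi_CX {M L : Type} [Field M] [Field L] [Algebra M L] (x y : L) :
    Psi x y (C X : M[X][X]) = x := by
  unfold Psi
  simp

theorem Psi_X {M L : Type} [Field M] [Field L] [Algebra M L] (x y : L) :
    Psi x y (X : M[X][X]) = y := by
  unfold Psi
  simp

theorem Psi_up2 {M L : Type} [Field M] [Field L] [Algebra M L] (x y : L) (A : M[X][X]) :
    evalEval x y (up2 L A) = Psi x y A := by
  have h : (evalEvalRingHom x y).comp (up2 L) = Psi (M := M) x y := by
    apply Polynomial.ringHom_ext'
    · apply Polynomial.ringHom_ext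
      · intro a
        simp only [RingHom.comp_apply, up2_C, Psi_CC, coe_evalRingHom, eval_C]
      · simp only [RingHom.comp_apply, Psi_CX]
        unfold up2
        rw [coe_mapRingHom, Polynomial.map_C, coe_mapRingHom, Polynomial.map_X]
        simp only [coe_evalRingHom, eval_C, eval_X]
    · simp only [RingHom.comp_apply, Psi_X]
      unfold up2
      rw [coe_mapRingHom, Polynomial.map_X]
      simp only [coe_evalRingHom, eval_C, eval_X]
  rw [← h]
  rfl

theorem Psi_comp_C {M L : Type} [Field M] [Field L] [Algebra M L] (x y : L) :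
    (Psi (M := M) x y).comp C = (evalRingHom x).comp (mapRingHom (algebraMap M L)) := by
  apply Polynomial.ringHom_ext
  · intro a
    rw [RingHom.comp_apply, Psi_CC]
    simp
  · rw [RingHom.comp_apply, Psi_CX]
    simp

theorem Psi_inj {M L : Type} [Field M] [CharZero M] [Field L] [CharZero L] [Algebra M L] {x y : L}
    (h : AlgebraicIndependent M ![x, y]) : Function.Injective (Psi (M := M) x y) := by
  obtain ⟨h1, h2⟩ := pair_tr h
  let Mx := IntermediateField.adjoin M {x}
  let g : Mx := IntermediateField.AdjoinSimple.gen M x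
  have hg : algebraMap Mx L g = x := IntermediateField.AdjoinSimple.algebraMap_gen M x
  have hgM : Transcendental M g := by
    intro h
    apply h1
    rw [← hg]
    exact h.algebraMap
  letI : Algebra M[X] Mx := (phA (M := M) M g).toAlgebra
  haveI : IsFractionRing M[X] Mx := phA_frac M hgM (adjoin_gen x)
  have h3 := phA_inj (M := Mx) (K := L) M[X] h2
  have h4 : phA (M := Mx) (K := L) M[X] y = Psi (M := M) x y := by
    apply Polynomial.ringHom_ext'
    · apply Polynomial.ringHom_ext
      · intro a
        rw [RingHom.comp_apply, RingHom.comp_apply, Psi_CC, phA_apply, Polynomial.map_C, aeval_C]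
        change algebraMap Mx L (phA (M := M) M g (C a)) = _
        rw [phA_apply, Polynomial.map_C, aeval_C]
        rfl
      · rw [RingHom.comp_apply, RingHom.comp_apply, Psi_CX, phA_apply, Polynomial.map_C, aeval_C]
        change algebraMap Mx L (phA (M := M) M g X) = _
        rw [phA_apply, Polynomial.map_X, aeval_X, hg]
    · rw [Psi_X, phA_apply, Polynomial.map_X, aeval_X]
  rw [← h4]
  exact h3

theorem VV_monic {M : Type} [Field M] {A A' : M[X][X]} (h : A'.Monic) (hn : 0 < A'.natDegree) :
    (VV A A').Monic := by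
  unfold VV
  refine (h.map C).sub_of_left ?_
  refine degree_lt_degree ?_
  rw [natDegree_C, h.natDegree_map]
  exact hn

theorem t_NetK (hL : StmLine) (hFld : StmFld) (hG : StmGauss) : StmNetK := by
  intro M K K₁ _ _ _ _ _ _ _ _ _ _ n m A A' w₁ w₂ x y hD hind htop hAm hAd hfun hn hm hco hA
  obtain ⟨hxy, htr, htop2⟩ := hFld M K K₁ A w₁ w₂ x y hind htop hAm hAd hfun
  let M2 := IntermediateField.adjoin M {x, y}
  have hx : x ∈ M2 := IntermediateField.subset_adjoin M _ (by simp)
  have hy : y ∈ M2 := IntermediateField.subset_adjoin M _ (by simp)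
  let x2 : M2 := ⟨x, hx⟩
  let y2 : M2 := ⟨y, hy⟩
  set W : K₁ := algebraMap K K₁ w₂ with hW
  let θ : M2 := Psi x2 y2 A
  -- the equation of the curve
  have hcomp : ∀ f : M[X][X], algebraMap M2 K₁ (Psi x2 y2 f) = Psi x y f := by
    intro f
    have h : (algebraMap M2 K₁).comp (Psi (M := M) x2 y2) = Psi (M := M) x y := by
      apply Polynomial.ringHom_ext'
      · apply Polynomial.ringHom_ext
        · intro a
          simp only [RingHom.comp_apply, Psi_CC]
          rfl
        · simp only [RingHom.comp_apply, Psi_CX]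
          rfl
      · simp only [RingHom.comp_apply, Psi_X]
        rfl
    rw [← h]
    rfl
  have hw : algebraMap K K₁ w₁ = -(algebraMap M2 K₁ θ) - W * x := by
    have h1 := hfun.eq
    unfold net at h1
    have h2 : (up2 K A).map (mapRingHom (algebraMap K K₁)) = up2 K₁ A := by
      have h3 := up2_up2 (M' := K) (K := K₁) A
      exact h3
    rw [Polynomial.map_add, h2, evalEval_add, Psi_up2] at h1
    have h3 : evalEval x y ((C (C w₁ + C w₂ * X) : K[X][X]).map (mapRingHom (algebraMap K K₁))) =
        algebraMap K K₁ w₁ + W * x := by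
      rw [Polynomial.map_C, evalEval_C]
      simp [hW]
    rw [h3] at h1
    rw [hcomp]
    linear_combination h1
  let A₂ : M2[X][X] := up2 M2 A' + C (C (-θ))
  have hA2 : IsCab n m A₂ := cab_add_C hn (by omega) (hA.map (algebraMap M M2)) _
  have hgen : Gen M2 W := fun z => gen_line htop2 z htr
  have hF : FF A₂ (C (X - C x2)) W = net (up2 K₁ A') (algebraMap K K₁ w₁) W := by
    unfold FF net
    rw [map_add, up2_up2, up2_C, up2_CX, hw]
    have h1 : algebraMap M2 K₁ x2 = x := rfl
    rw [h1, map_neg]
    simp only [C_add, C_mul, C_sub, C_neg]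
    ring
  have hD' : IsDedekindDomain (AdjoinRoot (FF A₂ (C (X - C x2)) W)) := by
    rw [hF]
    exact hD
  obtain ⟨c1, c2⟩ := hL M2 K₁ n m A₂ x2 W htr hgen hn hm hco hA2
  -- the number of the factors
  letI : Algebra M[X][X] M2 := (Psi (M := M) x2 y2).toAlgebra
  have hinj : Function.Injective (algebraMap M[X][X] M2) := by
    intro f g hfg
    have h1 : Psi (M := M) x2 y2 f = Psi (M := M) x2 y2 g := hfg
    apply Psi_inj hxy
    rw [← hcomp, ← hcomp, h1]
  haveI : IsFractionRing M[X][X] M2 := by
    refine Pool.Agent.R410.LW.frac_of_closure hinj ?_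
    have h1 : IntermediateField.adjoin M {x2, y2} = ⊤ := by
      apply IntermediateField.map_injective M2.val
      rw [IntermediateField.adjoin_map, Set.image_pair, ← AlgHom.fieldRange_eq_map,
        IntermediateField.fieldRange_val]
      rfl
    have h2 : (IntermediateField.adjoin M {x2, y2}).toSubfield ≤
        Subfield.closure (Set.range (algebraMap M[X][X] M2)) := by
      refine Subfield.closure_le.mpr ?_
      rintro z (⟨a, rfl⟩ | hz)
      · exact Subfield.subset_closure ⟨C (C a), Psi_CC x2 y2 a⟩
      · rcases hz with rfl | hz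
        · exact Subfield.subset_closure ⟨C X, Psi_CX x2 y2⟩
        · rw [Set.mem_singleton_iff] at hz
          subst hz
          exact Subfield.subset_closure ⟨X, Psi_X x2 y2⟩
    rw [h1] at h2
    exact top_le_iff.mp h2
  have hnF : nF (A₂.map (evalRingHom x2)) = nF (VV A A') := by
    have h1 := hG M[X][X] M2 (VV A A') (VV_monic hA.monic (by rw [hA.deg]; exact hn))
    rw [← h1]
    congr 1
    have h2 : (VV A A').map (algebraMap M[X][X] M2) =
        A'.map ((Psi (M := M) x2 y2).comp C) - C θ := by
      unfold VV
      rw [Polynomial.map_sub, Polynomial.map_map, Polynomial.map_C]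
      rfl
    rw [h2, Psi_comp_C, Polynomial.map_add, Polynomial.map_C]
    unfold up2
    rw [coe_mapRingHom, Polynomial.map_map, coe_evalRingHom, eval_C, C_neg, sub_eq_add_neg]
  rw [hnF] at c1 c2
  exact ⟨c1, rank_eq hF _ hD' hD c2⟩

end Pool.Agent.K3h85.NP
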