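import Pool.Agent.K3h71.NP.Stm
import Pool.Agent.R410.NG.CBr

/-!
# Project NP, brick NETZ: the rank over `K` is zero
-/

set_option autoImplicit false
set_option linter.all false

namespace Pool.Agent.K3h85.NP

open Polynomial Pool.Agent.K3h82.CP Pool.Agent.R410.NG Pool.Agent.K3h71.NP

theorem rank_eq {K : Type} [Field K] {F F' : K[X][X]} (h : F' = F) (r : Cardinal)
    (i' : IsDedekindDomain (AdjoinRoot F')) (i : IsDedekindDomain (AdjoinRoot F))
    (h' : Module.rank ℤ (Additive (ClassGroup (AdjoinRoot F'))) = r) :
    Module.rank ℤ (Additive (ClassGroup (AdjoinRoot F))) = r := by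
  subst h
  exact h'

/-- an irreducible polynomial has one irreducible factor -/
theorem nF_irr {D : Type} [CommRing D] [IsDomain D] {f : D} (hf : Irreducible f) : nF f = 1 := by
  unfold nF
  rw [Nat.card_eq_one_iff_unique]
  constructor
  · constructor
    rintro ⟨p, hp, hpf⟩ ⟨q, hq, hqf⟩
    have h1 : ∀ r : Associates D, Irreducible r → r ∣ Associates.mk f → r = Associates.mk f := by
      intro r hr hrf
      have h2 : Irreducible (Associates.mk f) := Associates.irreducible_mk.mpr hf
      exact associated_iff_eq.mp (hr.associated_of_dvd h2 hrf)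
    exact Subtype.ext ((h1 p hp hpf).trans (h1 q hq hqf).symm)
  · exact ⟨⟨Associates.mk f, Associates.irreducible_mk.mpr hf, dvd_rfl⟩⟩

/-- adding a constant -/
theorem cab_add_C {R : Type} [CommRing R] [Nontrivial R] {n m : ℕ} (hn : 0 < n) (hm : 0 < m)
    {A : R[X][X]} (h : IsCab n m A) (c : R) : IsCab n m (A + C (C c)) := by
  refine h.add_low hn hm ?_
  intro j hj
  have h0 : j = 0 := by
    by_contra h1
    apply hj
    rw [coeff_C, if_neg h1]
  subst h0
  rw [coeff_C_zero, natDegree_C]
  have := Nat.mul_pos hn hm
  omega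

theorem up2_C {M K : Type} [Field M] [Field K] [Algebra M K] (a : M) :
    up2 K (C (C a) : M[X][X]) = C (C (algebraMap M K a)) := by
  unfold up2
  rw [coe_mapRingHom, Polynomial.map_C, coe_mapRingHom, Polynomial.map_C]

theorem up2_CX {M K : Type} [Field M] [Field K] [Algebra M K] (a : M) :
    up2 K (C (X - C a) : M[X][X]) = C (X - C (algebraMap M K a)) := by
  unfold up2
  rw [coe_mapRingHom, Polynomial.map_C, coe_mapRingHom, Polynomial.map_sub, Polynomial.map_X,
    Polynomial.map_C]

theorem up2_up2 {M M' K : Type} [Field M] [Field M'] [Field K] [Algebra M M'] [Algebra M' K]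
    [Algebra M K] [IsScalarTower M M' K] (A : M[X][X]) : up2 K (up2 M' A) = up2 K A := by
  unfold up2
  rw [coe_mapRingHom, coe_mapRingHom, Polynomial.map_map, coe_mapRingHom, mapRingHom_comp,
    ← IsScalarTower.algebraMap_eq]

/-- the second element of an algebraically independent pair -/
theorem pair_tr {M K : Type} [Field M] [Field K] [Algebra M K] {w₁ w₂ : K}
    (h : AlgebraicIndependent M ![w₁, w₂]) :
    Transcendental M w₁ ∧ Transcendental (IntermediateField.adjoin M {w₁}) w₂ := by
  refine ⟨h.transcendental 0, ?_⟩
  have h1 := h.transcendental_adjoin (s := {0}) (i := 1) (by simp)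
  rw [Set.image_singleton] at h1
  rw [IntermediateField.transcendental_adjoin_iff]
  exact h1

theorem adjoin_pair {M K : Type} [Field M] [Field K] [Algebra M K] {w₁ w₂ : K}
    (h : IntermediateField.adjoin M {w₁, w₂} = ⊤) :
    IntermediateField.adjoin (IntermediateField.adjoin M {w₁}) {w₂} = ⊤ := by
  have h1 := IntermediateField.adjoin_simple_adjoin_simple M w₁ w₂
  rw [← IntermediateField.restrictScalars_eq_top_iff (K := M), h1]
  exact h

theorem adjoin_gen {M K : Type} [Field M] [Field K] [Algebra M K] (w : K) :
    IntermediateField.adjoin M {IntermediateField.AdjoinSimple.gen M w} = ⊤ := by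
  apply IntermediateField.map_injective (IntermediateField.adjoin M {w}).val
  rw [IntermediateField.adjoin_map, Set.image_singleton, ← AlgHom.fieldRange_eq_map,
    IntermediateField.fieldRange_val]
  rfl

/-- the value at `x₀` over a larger field -/
theorem up2_eval {M M' : Type} [Field M] [Field M'] [Algebra M M'] (A : M[X][X]) (x : M) :
    (up2 M' A).map (evalRingHom (algebraMap M M' x)) =
      (A.map (evalRingHom x)).map (algebraMap M M') := by
  unfold up2
  rw [coe_mapRingHom, Polynomial.map_map, Polynomial.map_map]
  congr 1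
  apply Polynomial.ringHom_ext
  · intro a
    simp
  · simp

section
variable {M K : Type} [Field M] [CharZero M] [Field K] [CharZero K] [Algebra M K] {ω : K}

/-- compare `Pool.Agent.K3h71.PP.irr_lead` -/
theorem irr_lead {a b : M[X]} (ha : a.Monic) (hab : IsCoprime a b) (hb : b ≠ 0)
    (hlt : b.natDegree < a.natDegree) (tr : Transcendental M ω)
    (htop : IntermediateField.adjoin M {ω} = ⊤) :
    Irreducible (a.map (algebraMap M K) + C ω * b.map (algebraMap M K)) := by
  let φ : M[X] →+* K := phA (M := M) M ω
  let _ : Algebra M[X] K := φ.toAlgebra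
  have _ : IsFractionRing M[X] K := phA_frac M tr htop
  set f : M[X][X] := a.map C + C X * b.map C with hf
  have hfm : f.Monic := by
    refine (ha.map C).add_of_left ?_
    have h1 : (a.map (C : M →+* M[X])).natDegree = a.natDegree :=
      natDegree_map_eq_of_injective C_injective _
    have h2 : (C X * b.map (C : M →+* M[X])).natDegree ≤ b.natDegree :=
      (natDegree_C_mul_le _ _).trans natDegree_map_le
    refine degree_lt_degree ?_
    rw [h1]
    exact h2.trans_lt hlt
  have h1 : Irreducible f := by
    have h2 : Irreducible (C b * X + C a : M[X][X]) :=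
      irreducible_C_mul_X_add_C hb hab.symm.isRelPrime
    have h3 : Bivariate.swap f = C b * X + C a := by
      rw [hf, map_add, map_mul, Bivariate.swap_map_C, Bivariate.swap_map_C, Bivariate.swap_X]
      ring
    rw [← h3] at h2
    exact (MulEquiv.irreducible_iff (Bivariate.swap (R := M))).1 h2
  have h4 := (hfm.irreducible_iff_irreducible_map_fraction_map (K := K)).1 h1
  have hφC : (algebraMap M[X] K).comp C = algebraMap M K := by
    refine RingHom.ext fun z => ?_
    show phA (M := M) M ω (C z) = _
    rw [phA_apply, Polynomial.map_C, aeval_C]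
    rfl
  have hφX : algebraMap M[X] K X = ω := by
    show phA (M := M) M ω X = _
    rw [phA_apply, Polynomial.map_X, aeval_X]
  rw [hf, Polynomial.map_add, Polynomial.map_mul, Polynomial.map_map, Polynomial.map_map,
    Polynomial.map_C, hφC, hφX] at h4
  exact h4

end

theorem t_NetZ (hL : StmLine) : StmNetZ := by
  intro M K _ _ _ _ _ n m A w₁ w₂ hD hind htop hn hm hco hA
  obtain ⟨hw1, hw2⟩ := pair_tr hind
  have htop2 := adjoin_pair htop
  let M1 := IntermediateField.adjoin M {w₁}
  let g : M1 := IntermediateField.AdjoinSimple.gen M w₁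
  have hg : algebraMap M1 K g = w₁ := IntermediateField.AdjoinSimple.algebraMap_gen M w₁
  let A₁ : M1[X][X] := up2 M1 A + C (C g)
  have hA1 : IsCab n m A₁ := cab_add_C hn (by omega) (hA.map (algebraMap M M1)) g
  have hgen : Gen M1 w₂ := fun z => gen_line htop2 z hw2
  have hF : FF A₁ (C (X - C 0)) w₂ = net (up2 K A) w₁ w₂ := by
    unfold FF net
    rw [map_add, up2_up2, up2_C, up2_CX, hg, map_zero]
    simp only [C_add, C_mul, C_0, sub_zero]
    ring
  have hD' : IsDedekindDomain (AdjoinRoot (FF A₁ (C (X - C 0)) w₂)) := by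
    rw [hF]
    exact hD
  obtain ⟨-, h2⟩ := hL M1 K n m A₁ 0 w₂ hw2 hgen hn hm hco hA1
  -- the value at zero is irreducible
  have hgM : Transcendental M g := by
    intro h
    apply hw1
    rw [← hg]
    exact h.algebraMap
  have hgtop : IntermediateField.adjoin M {g} = ⊤ := adjoin_gen w₁
  have hirr : Irreducible (A₁.map (evalRingHom 0)) := by
    have h3 := irr_lead (M := M) (K := M1) (ω := g)
      (a := A.map (evalRingHom 0)) (b := 1) (hA.monic.map _) isCoprime_one_right one_ne_zero
      (by rw [natDegree_one, hA.monic.natDegree_map, hA.deg]; exact hn) hgM hgtop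
    have h4 : A₁.map (evalRingHom 0) = (A.map (evalRingHom 0)).map (algebraMap M M1) +
        C g * (1 : M[X]).map (algebraMap M M1) := by
      rw [Polynomial.map_one, mul_one]
      have h5 := up2_eval (M' := M1) A 0
      rw [map_zero] at h5
      rw [← h5, Polynomial.map_add, Polynomial.map_C, coe_evalRingHom, eval_C]
    rw [h4]
    exact h3
  have h4 : nF (A₁.map (evalRingHom 0)) = 1 := nF_irr hirr
  rw [h4] at h2
  have h5 := rank_eq hF _ hD' hD h2
  rw [h5]
  simp

end Pool.Agent.K3h85.NP
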